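import Mathlib
import Pool.Agent.TH456.HN.Three

set_option autoImplicit false

namespace Pool.Agent.Results.MP_bc9ae7_nt.NoThreeConsecutive

/-- `n = n_k`, i.e. `H_{n-1} < k < H_n`. -/
def IsThreshold (k n : ℕ) : Prop :=
  ((harmonic (n - 1) : ℚ) : ℝ) < (k : ℝ) ∧ (k : ℝ) < ((harmonic n : ℚ) : ℝ)

/-- `n = n_k` and `|n - e^{k-γ}| ≥ 1/2`: the integer `k` is an exception, with threshold `n`. -/
def ExceptionAt (k n : ℕ) : Prop :=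
  IsThreshold k n ∧ 1 / 2 ≤ |(n : ℝ) - Real.exp ((k : ℝ) - Real.eulerMascheroniConstant)|

/-- numerators `1, 3, 19, 193, 2721, ...` of the convergents of `e` preceding its large partial quotients -/
def p : ℕ → ℤ
  | 0 => 1
  | 1 => 3
  | (j + 2) => (4 * j + 6) * p (j + 1) + p j

/-- the corresponding denominators `1, 1, 7, 71, 1001, ...` -/
def q : ℕ → ℤ
  | 0 => 1
  | 1 => 1
  | (j + 2) => (4 * j + 6) * q (j + 1) + q j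

theorem p_eq : ∀ j : ℕ, p j = TH456.CE.p j ∧ p (j + 1) = TH456.CE.p (j + 1) := by
  intro j
  induction j with
  | zero => exact ⟨rfl, rfl⟩
  | succ j ih =>
    refine ⟨ih.2, ?_⟩
    show (4 * (j : ℤ) + 6) * p (j + 1) + p j = (4 * (j : ℤ) + 6) * TH456.CE.p (j + 1) + TH456.CE.p j
    rw [ih.1, ih.2]

theorem q_eq : ∀ j : ℕ, q j = TH456.CE.q j ∧ q (j + 1) = TH456.CE.q (j + 1) := by
  intro j
  induction j with
  | zero => exact ⟨rfl, rfl⟩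
  | succ j ih =>
    refine ⟨ih.2, ?_⟩
    show (4 * (j : ℤ) + 6) * q (j + 1) + q j = (4 * (j : ℤ) + 6) * TH456.CE.q (j + 1) + TH456.CE.q j
    rw [ih.1, ih.2]

/-- For every `k ≥ 2` at least one of `k, k + 1, k + 2` satisfies `|n_k - e^{k-γ}| < 1/2`.  Moreover, if `k` and
`k + 1` are both exceptions, with thresholds `n` and `n'`, then `(2n + 1, 2n' + 1) = g (q_j, p_j)` for one of
the convergents `p_j / q_j` of `e` (`j ≥ 2`) and an integer `g ≥ 1` with `g² ≤ 1.02 (4 j + 3)`. -/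
theorem result :
    (∀ k : ℕ, 2 ≤ k → ¬ ∃ n₀ n₁ n₂ : ℕ,
      ExceptionAt k n₀ ∧ ExceptionAt (k + 1) n₁ ∧ ExceptionAt (k + 2) n₂) ∧
    (∀ k n n' : ℕ, 2 ≤ k → ExceptionAt k n → ExceptionAt (k + 1) n' →
      ∃ j : ℕ, 2 ≤ j ∧ ∃ g : ℤ, 1 ≤ g ∧ 2 * (n : ℤ) + 1 = g * q j ∧ 2 * (n' : ℤ) + 1 = g * p j ∧
        (g : ℝ) ^ 2 ≤ 1.02 * (4 * j + 3)) := by
  have hodd : ∀ n : ℕ, Odd (2 * (n : ℤ) + 1) := fun n => ⟨n, rfl⟩
  constructor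
  · rintro k hk ⟨n₀, n₁, n₂, ⟨⟨a1, a2⟩, a3⟩, ⟨⟨b1, b2⟩, b3⟩, ⟨⟨c1, c2⟩, c3⟩⟩
    obtain ⟨h1, h9⟩ := TH456.CE.consec k n₀ n₁ hk a1 a2 a3 b1 b2 b3
    obtain ⟨h2, -⟩ := TH456.CE.consec (k + 1) n₁ n₂ (by omega) b1 b2 b3 c1 c2 c3
    exact TH456.CE.main _ _ _ h9 (hodd n₀) (hodd n₁) (hodd n₂) h1 h2
  · rintro k n n' hk ⟨⟨a1, a2⟩, a3⟩ ⟨⟨b1, b2⟩, b3⟩
    obtain ⟨h1, h9⟩ := TH456.CE.consec k n n' hk a1 a2 a3 b1 b2 b3
    obtain ⟨j, hj, g, hg, e1, e2, e3⟩ := TH456.CE.pair _ _ h9 (hodd n) (hodd n') h1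
    exact ⟨j, hj, g, hg, by rw [(q_eq j).1]; exact e1, by rw [(p_eq j).1]; exact e2, e3⟩

end Pool.Agent.Results.MP_bc9ae7_nt.NoThreeConsecutive
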