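import Mathlib
import Pool.Agent.TH456.HN.Main

set_option autoImplicit false

namespace Pool.Agent.Results.MP_bc9ae7_nt.SparseExceptions

open Filter Topology Finset

/-- `k` is an exception to the nearest-integer property: `n = n_k`, i.e. `H_{n-1} < k < H_n`, and
`|n - e^{k-γ}| ≥ 1/2`. -/
def Exceptional (k : ℕ) : Prop :=
  ∃ n : ℕ, ((harmonic (n - 1) : ℚ) : ℝ) < (k : ℝ) ∧ (k : ℝ) < ((harmonic n : ℚ) : ℝ) ∧
    1 / 2 ≤ |(n : ℝ) - Real.exp ((k : ℝ) - Real.eulerMascheroniConstant)|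

/-- `n = n_k`, i.e. `H_{n-1} < k < H_n`, and `|n - e^{k-γ}| ≥ 1/2 - e^{-ck}`. -/
def NearlyExceptional (c : ℝ) (k : ℕ) : Prop :=
  ∃ n : ℕ, ((harmonic (n - 1) : ℚ) : ℝ) < (k : ℝ) ∧ (k : ℝ) < ((harmonic n : ℚ) : ℝ) ∧
    1 / 2 - Real.exp (-(c * k)) ≤ |(n : ℝ) - Real.exp ((k : ℝ) - Real.eulerMascheroniConstant)|

/-- The exceptions are sparse.  For `0 < κ < 1/9`: every window `[n, n + n^κ]` with `n` large contains at
most two exceptional `k`, and there are `O(X^{1-κ})` exceptional `k ≤ X`; in particular the property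
`|n_k - e^{k-γ}| < 1/2` holds for a set of `k` of natural density one.  Moreover, for `0 < c ≤ 1` the
`k` with `|n_k - e^{k-γ}| ≥ 1/2 - e^{-ck}` are sparse in the same sense, with `m` in place of two and any
`κ > 0` with `κ (m + 1) (m - 1 + cm) < cm - 1`. -/
theorem result :
    (∀ κ : ℝ, 0 < κ → κ < 1 / 9 →
      (∃ n₀ : ℕ, ∀ n : ℕ, n₀ ≤ n →
        {k : ℕ | n ≤ k ∧ (k : ℝ) ≤ n + (n : ℝ) ^ κ ∧ Exceptional k}.encard ≤ 2) ∧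
      (∃ D : ℝ, ∀ X : ℕ, 1 ≤ X →
        (Nat.card {k : ℕ | 1 ≤ k ∧ k ≤ X ∧ Exceptional k} : ℝ) ≤ D * (X : ℝ) ^ (1 - κ))) ∧
    Tendsto (fun X : ℕ => (Nat.card {k : ℕ | 1 ≤ k ∧ k ≤ X ∧ Exceptional k} : ℝ) / X) atTop (𝓝 0) ∧
    (∀ (m : ℕ) (c κ : ℝ), 1 ≤ m → 0 < c → c ≤ 1 → 0 < κ →
      κ * ((m + 1) * (m - 1 + c * m)) < c * m - 1 →
      (∃ n₀ : ℕ, ∀ n : ℕ, n₀ ≤ n →
        {k : ℕ | n ≤ k ∧ (k : ℝ) ≤ n + (n : ℝ) ^ κ ∧ NearlyExceptional c k}.encard ≤ m) ∧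
      (∃ D : ℝ, ∀ X : ℕ, 1 ≤ X →
        (Nat.card {k : ℕ | 1 ≤ k ∧ k ≤ X ∧ NearlyExceptional c k} : ℝ) ≤ D * (X : ℝ) ^ (1 - κ))) := by
  classical
  have hgen : ∀ (m : ℕ) (c κ : ℝ), 1 ≤ m → 0 < c → c ≤ 1 → 0 < κ →
      κ * ((m + 1) * (m - 1 + c * m)) < c * m - 1 →
      (∃ n₀ : ℕ, ∀ n : ℕ, n₀ ≤ n →
        {k : ℕ | n ≤ k ∧ (k : ℝ) ≤ n + (n : ℝ) ^ κ ∧ NearlyExceptional c k}.encard ≤ m) ∧
      (∃ D : ℝ, ∀ X : ℕ, 1 ≤ X →
        (Nat.card {k : ℕ | 1 ≤ k ∧ k ≤ X ∧ NearlyExceptional c k} : ℝ) ≤ D * (X : ℝ) ^ (1 - κ)) := by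
    intro m c κ hm hc0 hc1 hκ0 hκ
    constructor
    · obtain ⟨n₀, hn⟩ := TH456.HN.nearHalf_window m c κ hm hc0 hc1 hκ0 hκ
      refine ⟨n₀, fun n hn0 => ?_⟩
      have hsub : {k : ℕ | n ≤ k ∧ (k : ℝ) ≤ n + (n : ℝ) ^ κ ∧ NearlyExceptional c k} ⊆
          (((Icc n (n + ⌊(n : ℝ) ^ κ⌋₊)).filter
            (fun k : ℕ => TH456.HN.NearHalf (Real.exp (-(c * k))) k) : Finset ℕ) : Set ℕ) := by
        intro k hk
        rw [Finset.mem_coe, mem_filter, mem_Icc]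
        refine ⟨⟨hk.1, ?_⟩, hk.2.2⟩
        have h1 : ((k - n : ℕ) : ℝ) ≤ (n : ℝ) ^ κ := by
          rw [Nat.cast_sub hk.1]
          linarith [hk.2.1]
        have h2 := Nat.le_floor h1
        omega
      refine (Set.encard_le_encard hsub).trans ?_
      rw [Set.encard_coe_eq_coe_finsetCard]
      exact_mod_cast hn n hn0
    · obtain ⟨D, hD⟩ := TH456.HN.nearHalf_count m c κ hm hc0 hc1 hκ0 hκ
      refine ⟨D, fun X hX => ?_⟩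
      refine le_trans (le_of_eq ?_) (hD X hX)
      congr 1
      have hset : {k : ℕ | 1 ≤ k ∧ k ≤ X ∧ NearlyExceptional c k} =
          (((Icc 1 X).filter
            (fun k : ℕ => TH456.HN.NearHalf (Real.exp (-(c * k))) k) : Finset ℕ) : Set ℕ) := by
        ext k
        rw [Finset.mem_coe, mem_filter, mem_Icc]
        exact ⟨fun h => ⟨⟨h.1, h.2.1⟩, h.2.2⟩, fun h => ⟨h.1.1, h.1.2, h.2⟩⟩
      rw [hset, Nat.card_coe_set_eq, Set.ncard_coe_finset]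
  have hmono : ∀ k : ℕ, Exceptional k → NearlyExceptional 1 k := by
    rintro k ⟨n, h1, h2, h3⟩
    have := Real.exp_pos (-(1 * (k : ℝ)))
    exact ⟨n, h1, h2, by linarith⟩
  have hmain : ∀ κ : ℝ, 0 < κ → κ < 1 / 9 →
      (∃ n₀ : ℕ, ∀ n : ℕ, n₀ ≤ n →
        {k : ℕ | n ≤ k ∧ (k : ℝ) ≤ n + (n : ℝ) ^ κ ∧ Exceptional k}.encard ≤ 2) ∧
      (∃ D : ℝ, ∀ X : ℕ, 1 ≤ X →
        (Nat.card {k : ℕ | 1 ≤ k ∧ k ≤ X ∧ Exceptional k} : ℝ) ≤ D * (X : ℝ) ^ (1 - κ)) := by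
    intro κ hκ0 hκ
    obtain ⟨⟨n₀, hn⟩, D, hD⟩ := hgen 2 1 κ (by norm_num) one_pos le_rfl hκ0 (by push_cast; linarith)
    refine ⟨⟨n₀, fun n hn0 => ?_⟩, D, fun X hX => ?_⟩
    · refine (Set.encard_le_encard ?_).trans (hn n hn0)
      exact fun k hk => ⟨hk.1, hk.2.1, hmono k hk.2.2⟩
    · refine le_trans ?_ (hD X hX)
      have hfin : {k : ℕ | 1 ≤ k ∧ k ≤ X ∧ NearlyExceptional 1 k}.Finite :=
        (Set.finite_Icc 1 X).subset (fun k hk => ⟨hk.1, hk.2.1⟩)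
      have hsub : {k : ℕ | 1 ≤ k ∧ k ≤ X ∧ Exceptional k} ⊆
          {k : ℕ | 1 ≤ k ∧ k ≤ X ∧ NearlyExceptional 1 k} :=
        fun k hk => ⟨hk.1, hk.2.1, hmono k hk.2.2⟩
      have hle := Set.ncard_le_ncard hsub hfin
      rw [Nat.card_coe_set_eq, Nat.card_coe_set_eq]
      exact_mod_cast hle
  refine ⟨hmain, ?_, hgen⟩
  obtain ⟨-, D, hD⟩ := hmain (1 / 10) (by norm_num) (by norm_num)
  have ht : Tendsto (fun X : ℕ => D * (X : ℝ) ^ (-(1 / 10 : ℝ))) atTop (𝓝 0) := by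
    have h1 := ((tendsto_rpow_neg_atTop (by norm_num : (0 : ℝ) < 1 / 10)).comp
      (tendsto_natCast_atTop_atTop (R := ℝ))).const_mul D
    rw [mul_zero] at h1
    exact h1
  refine squeeze_zero' (Eventually.of_forall fun X => by positivity) ?_ ht
  filter_upwards [eventually_ge_atTop 1] with X hX
  have hX0 : (0 : ℝ) < X := by exact_mod_cast hX
  rw [div_le_iff₀ hX0, mul_assoc]
  refine (hD X hX).trans (le_of_eq ?_)
  congr 1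
  have h2 := Real.rpow_add hX0 (-(1 / 10 : ℝ)) 1
  rw [Real.rpow_one] at h2
  rw [← h2]
  congr 1
  ring

end Pool.Agent.Results.MP_bc9ae7_nt.SparseExceptions
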